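import Pool.Agent.TH283.SP.INEQ

set_option autoImplicit false

/-!
(IND): from separation of jets to the dimension of a linear series.
-/

namespace Pool.Agent.TH623.VS

open MvPolynomial Pool.Agent.W607 Pool.Agent.TH852.SP Pool.Agent.TH283.SP

theorem JJ_anti (F : R4) (w : Fin (3 + 1) → ℂ) {m s : ℕ} (h : m ≤ s) :
    JJ F w s ≤ JJ F w m := by
  unfold JJ
  exact sup_le_sup_left (Ideal.pow_le_pow_right h) _

theorem t_IND (h : S_LOC) : S_IND := by
  classical
  intro F n E s w m hw0 hwF hsm hSep hms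
  set I : Ideal R4 := Ideal.span {F} with hI
  let K : Fin n → Ideal R4 := fun q => JJ F (w q) (m q)
  have hIK : ∀ q, I ≤ K q := fun q => by
    show I ≤ JJ F (w q) (m q)
    unfold JJ; exact le_sup_left.trans le_sup_left
  have hsK : ∀ q, JJ F (w q) s ≤ K q := fun q => JJ_anti F (w q) (hms q)
  have hloc := fun q => h F (w q) (hw0 q) (hwF q) (hsm q) (m q)
  have hfinK : ∀ q, FiniteDimensional ℂ (R4 ⧸ K q) := fun q => (hloc q).1
  let mk : R4 →ₗ[ℂ] (R4 ⧸ I) := (Ideal.Quotient.mkₐ ℂ I).toLinearMap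
  let V : Submodule ℂ (R4 ⧸ I) := (homogeneousSubmodule (Fin (3 + 1)) ℂ E).map mk
  have hVfin : FiniteDimensional ℂ V := Module.Finite.iff_fg.mpr ((fg_homog E).map mk)
  have hV : Module.finrank ℂ V = hilb I E := rfl
  let Ψ : (R4 ⧸ I) →ₗ[ℂ] (∀ q, R4 ⧸ K q) :=
    LinearMap.pi (fun q => (Ideal.Quotient.factorₐ ℂ (hIK q)).toLinearMap)
  have hΨ : ∀ (f : R4) (q : Fin n), Ψ (mk f) q = Ideal.Quotient.mk (K q) f := fun f q => rfl
  let ψ : V →ₗ[ℂ] (∀ q, R4 ⧸ K q) := Ψ.domRestrict V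
  have hsurj : Function.Surjective ψ := by
    intro x
    have hlift : ∀ q, ∃ f : R4, Ideal.Quotient.mk (K q) f = x q := fun q =>
      Ideal.Quotient.mk_surjective (x q)
    choose f hf using hlift
    have hSep' := fun q => hSep q (f q)
    choose P hP1 hP2 hP3 using hSep'
    refine ⟨⟨mk (∑ q, P q), ⟨∑ q, P q, ?_, rfl⟩⟩, ?_⟩
    · exact Submodule.sum_mem _ (fun q _ => hP1 q)
    · funext q
      show Ψ (mk (∑ q, P q)) q = x q
      rw [hΨ, map_sum, Finset.sum_eq_single q]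
      · rw [← hf q, Ideal.Quotient.eq]
        exact hsK q (hP2 q)
      · intro q' _ hq'
        rw [Ideal.Quotient.eq_zero_iff_mem]
        exact hsK q (hP3 q' q hq'.symm)
      · intro hq; exact absurd (Finset.mem_univ q) hq
  have hker : series F E m w = (LinearMap.ker ψ).map V.subtype := by
    apply le_antisymm
    · rintro x ⟨f, hf, rfl⟩
      obtain ⟨h1, h2⟩ := Submodule.mem_inf.1 hf
      have h3 : f ∈ (⨅ q, JJ F (w q) (m q)) := h2
      rw [Ideal.mem_iInf] at h3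
      refine ⟨⟨mk f, ⟨f, h1, rfl⟩⟩, ?_, rfl⟩
      show ψ ⟨mk f, _⟩ = 0
      funext q
      show Ψ (mk f) q = 0
      rw [hΨ, Ideal.Quotient.eq_zero_iff_mem]
      exact h3 q
    · rintro x ⟨⟨y, ⟨f, hf, rfl⟩⟩, hy, rfl⟩
      have hy' : ∀ q, Ψ (mk f) q = 0 := fun q => congrFun (LinearMap.mem_ker.1 hy) q
      refine ⟨f, Submodule.mem_inf.2 ⟨hf, ?_⟩, rfl⟩
      show f ∈ (⨅ q, JJ F (w q) (m q))
      rw [Ideal.mem_iInf]
      intro q
      have := hy' q
      rw [hΨ, Ideal.Quotient.eq_zero_iff_mem] at this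
      exact this
  have h1 := LinearMap.finrank_range_add_finrank_ker ψ
  have h2 : Module.finrank ℂ (LinearMap.range ψ) = ∑ q, Module.finrank ℂ (R4 ⧸ K q) := by
    rw [LinearMap.range_eq_top.mpr hsurj, finrank_top, Module.finrank_pi_fintype]
  have h3 : Module.finrank ℂ (series F E m w) = Module.finrank ℂ (LinearMap.ker ψ) := by
    rw [hker]
    exact Submodule.finrank_map_subtype_eq _ _
  have h4 : ∀ q, Module.finrank ℂ (R4 ⧸ K q) = (m q + 1).choose 2 := by
    intro q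
    have h5 : 2 * Module.finrank ℂ (R4 ⧸ K q) = m q * (m q + 1) := (hloc q).2
    have h6 : 2 * (m q + 1).choose 2 = (m q + 1) * (m q + 1 - 1) := by
      rw [Nat.choose_two_right]
      exact Nat.mul_div_cancel' (Nat.even_mul_pred_self (m q + 1)).two_dvd
    rw [Nat.add_sub_cancel] at h6
    have h7 : 2 * Module.finrank ℂ (R4 ⧸ K q) = 2 * (m q + 1).choose 2 := by
      rw [h5, h6, mul_comm]
    exact Nat.eq_of_mul_eq_mul_left (by norm_num) h7
  rw [h2, hV] at h1
  rw [h3, ← h1, Finset.sum_congr rfl (fun q _ => h4 q)]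
  ring

end Pool.Agent.TH623.VS
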