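import Pool.Agent.TH852.SP.Stmts

/-!
# Node and smooth point (job VS-NODE)
-/

set_option autoImplicit false

namespace Pool.Agent.TH623.VS

open MvPolynomial Pool.Agent.W607 Pool.Agent.TH852.SP

section taylor

variable (w : Fin (3 + 1) → ℂ)

theorem gen_mem (i : Fin (3 + 1)) : (X i - C (w i) : R4) ∈ mw w := Ideal.subset_span ⟨i, rfl⟩

variable {w}

theorem mw_eval {h : R4} (hh : h ∈ mw w) : eval w h = 0 := by
  have h1 : mw w ≤ RingHom.ker (eval w) := by
    rw [mw, Ideal.span_le]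
    rintro _ ⟨i, rfl⟩
    simp [RingHom.mem_ker]
  exact h1 hh

theorem taylor (h : R4) :
    h - C (eval w h) - ∑ i, C (eval w (pderiv i h)) * (X i - C (w i)) ∈ (mw w) ^ 2 := by
  induction h using MvPolynomial.induction_on with
  | C a => simp
  | add p q hp hq =>
    have h1 := Ideal.add_mem _ hp hq
    convert h1 using 1
    simp only [map_add, add_mul, Finset.sum_add_distrib]
    ring
  | mul_X p n hp =>
    set L : R4 := ∑ i, C (eval w (pderiv i p)) * (X i - C (w i)) with hL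
    have hLm : L ∈ mw w := Ideal.sum_mem _ fun i _ => Ideal.mul_mem_left _ _ (gen_mem w i)
    have h1 : L * (X n - C (w n)) ∈ (mw w) ^ 2 := by
      rw [pow_two]; exact Ideal.mul_mem_mul hLm (gen_mem w n)
    have h2 : (p - C (eval w p) - L) * X n ∈ (mw w) ^ 2 := Ideal.mul_mem_right _ _ hp
    convert Ideal.add_mem _ h1 h2 using 1
    have e : ∑ i, C (eval w (pderiv i (p * X n))) * (X i - C (w i) : R4) =
        L * C (w n) + C (eval w p) * (X n - C (w n)) := by
      have e1 : ∀ i, C (eval w (pderiv i (p * X n))) * (X i - C (w i) : R4) =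
          C (eval w (pderiv i p)) * (X i - C (w i)) * C (w n) +
            (if i = n then C (eval w p) * (X i - C (w i)) else 0) := by
        intro i
        rw [Derivation.leibniz, pderiv_X]
        by_cases hin : i = n
        · subst hin
          simp
          ring
        · rw [Pi.single_eq_of_ne (Ne.symm hin)]
          simp [hin]
          ring
      rw [Finset.sum_congr rfl fun i _ => e1 i, Finset.sum_add_distrib, Finset.sum_ite_eq',
        ← Finset.sum_mul]
      simp [hL]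
    rw [e, map_mul, eval_X, C_mul]
    ring

theorem mem_sq_iff {h : R4} :
    h ∈ (mw w) ^ 2 ↔ eval w h = 0 ∧ ∀ i, eval w (pderiv i h) = 0 := by
  constructor
  · intro hh
    rw [pow_two] at hh
    refine Submodule.mul_induction_on hh ?_ ?_
    · intro a ha b hb
      have h1 := mw_eval ha
      have h2 := mw_eval hb
      refine ⟨by rw [map_mul, h1, zero_mul], fun i => ?_⟩
      rw [Derivation.leibniz]
      simp [h1, h2]
    · rintro a b ⟨ha, ha'⟩ ⟨hb, hb'⟩
      exact ⟨by rw [map_add, ha, hb, add_zero], fun i => by rw [map_add, map_add, ha', hb', add_zero]⟩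
  · rintro ⟨h0, h1⟩
    have := taylor (w := w) h
    rw [h0] at this
    simpa [h1] using this

end taylor

section part1

/-- Evaluation at `w` as a linear map. -/
noncomputable def E (w : Fin (3 + 1) → ℂ) : R4 →ₗ[ℂ] ℂ := (aeval w).toLinearMap

/-- Partial derivative at `w`. -/
noncomputable def D (w : Fin (3 + 1) → ℂ) (i : Fin (3 + 1)) : R4 →ₗ[ℂ] ℂ :=
  E w ∘ₗ (pderiv i : Derivation ℂ R4 R4).toLinearMap

theorem E_apply (w : Fin (3 + 1) → ℂ) (h : R4) : E w h = eval w h := by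
  simp [E, aeval_def, eval₂_eq_eval_map, MvPolynomial.map_id]

theorem D_apply (w : Fin (3 + 1) → ℂ) (i : Fin (3 + 1)) (h : R4) :
    D w i h = eval w (pderiv i h) := by
  rw [← E_apply]; rfl

/-- The four functionals. -/
noncomputable def T (w : Fin (3 + 1) → ℂ) (F : R4) : R4 →ₗ[ℂ] (Fin 4 → ℂ) :=
  LinearMap.pi ![E w,
    D w 0 - (D w 0 F / D w 3 F) • D w 3,
    D w 1 - (D w 1 F / D w 3 F) • D w 3,
    D w 2 - (D w 2 F / D w 3 F) • D w 3]

theorem ker_T (w : Fin (3 + 1) → ℂ) (F : R4) (hF : eval w F = 0)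
    (hc : eval w (pderiv 3 F) ≠ 0) (h : R4) :
    h ∈ LinearMap.ker (T w F) ↔ h ∈ Ideal.span {F} ⊔ (mw w) ^ 2 := by
  have hc' : D w 3 F ≠ 0 := by rwa [D_apply]
  have key : h ∈ LinearMap.ker (T w F) ↔
      eval w h = 0 ∧ ∀ i : Fin (3 + 1), D w i h = D w i F / D w 3 F * D w 3 h := by
    rw [LinearMap.mem_ker]
    constructor
    · intro h0
      have h1 := congrFun h0 0
      have h2 := congrFun h0 1
      have h3 := congrFun h0 2
      have h4 := congrFun h0 3
      simp [T, E_apply] at h1 h2 h3 h4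
      refine ⟨h1, ?_⟩
      intro i
      fin_cases i
      · exact sub_eq_zero.1 h2
      · exact sub_eq_zero.1 h3
      · exact sub_eq_zero.1 h4
      · change D w 3 h = D w 3 F / D w 3 F * D w 3 h
        rw [div_self hc', one_mul]
    · rintro ⟨h1, h2⟩
      funext j
      fin_cases j
      · simpa [T, E_apply] using h1
      · simpa [T] using sub_eq_zero.2 (h2 0)
      · simpa [T] using sub_eq_zero.2 (h2 1)
      · simpa [T] using sub_eq_zero.2 (h2 2)
  rw [key]
  constructor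
  · rintro ⟨h1, h2⟩
    have h3 : h - C (D w 3 h / D w 3 F) * F ∈ (mw w) ^ 2 := by
      rw [mem_sq_iff]
      refine ⟨by simp [h1, hF], fun i => ?_⟩
      rw [map_sub, map_sub, Derivation.leibniz, pderiv_C, smul_zero, add_zero, smul_eq_mul,
        map_mul, eval_C, ← D_apply, ← D_apply, h2 i]
      field_simp
      ring
    have h4 : h = C (D w 3 h / D w 3 F) * F + (h - C (D w 3 h / D w 3 F) * F) := by ring
    rw [h4]
    exact Ideal.add_mem _ (Ideal.mem_sup_left (Ideal.mul_mem_left _ _ (Ideal.mem_span_singleton_self F)))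
      (Ideal.mem_sup_right h3)
  · intro hh
    obtain ⟨a, ha, b, hb, rfl⟩ := Submodule.mem_sup.1 hh
    obtain ⟨g, rfl⟩ := Ideal.mem_span_singleton'.1 ha
    obtain ⟨hb0, hb1⟩ := mem_sq_iff.1 hb
    have e : ∀ i, D w i (g * F + b) = eval w g * D w i F := by
      intro i
      rw [D_apply, D_apply, map_add, map_add, hb1 i, Derivation.leibniz]
      simp [hF]
    refine ⟨by simp [hF, hb0], fun i => ?_⟩
    rw [e, e]
    field_simp

theorem finrank_eq (w : Fin (3 + 1) → ℂ) (F : R4) (hF : eval w F = 0)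
    (hc : eval w (pderiv 3 F) ≠ 0) :
    Module.finrank ℂ (R4 ⧸ (Ideal.span {F} ⊔ (mw w) ^ 2)) = 4 := by
  set I : Ideal R4 := Ideal.span {F} ⊔ (mw w) ^ 2 with hI
  have hs : Function.Surjective (T w F) := by
    intro v
    refine ⟨C (v 0) + C (v 1) * (X 0 - C (w 0)) + C (v 2) * (X 1 - C (w 1)) +
      C (v 3) * (X 2 - C (w 2)), ?_⟩
    funext j
    fin_cases j
    · simp [T, E_apply]
    all_goals simp [T, D_apply, pderiv_X]
  have he : I.restrictScalars ℂ = LinearMap.ker (T w F) := by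
    ext h
    rw [ker_T w F hF hc]
    rfl
  have e1 := Submodule.Quotient.restrictScalarsEquiv ℂ I
  have e2 := (T w F).quotKerEquivOfSurjective hs
  rw [← (e1.symm ≪≫ₗ (Submodule.quotEquivOfEq _ _ he) ≪≫ₗ e2).symm.finrank_eq]
  simp

end part1

section part2

/-- The embedding of the ring in three variables. -/
noncomputable def emb : R3 →ₐ[ℂ] R4 := aeval ![X 0, X 1, X 2]

theorem sub_emb_res (t a b : ℂ) (F : R4) : F - emb (res t a b F) ∈ Ideal.span {pl t a b} := by
  rw [← Ideal.Quotient.eq]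
  have h : (Ideal.Quotient.mkₐ ℂ (Ideal.span {pl t a b})) =
      ((Ideal.Quotient.mkₐ ℂ (Ideal.span {pl t a b})).comp emb).comp (res t a b) := by
    apply MvPolynomial.algHom_ext
    intro i
    fin_cases i
    · simp [res, emb]
    · simp [res, emb]
    · simp [res, emb]
    · change Ideal.Quotient.mk _ (X 3) = Ideal.Quotient.mk _ (emb (res t a b (X 3)))
      rw [Ideal.Quotient.eq]
      have e : (X 3 : R4) - emb (res t a b (X 3)) = pl t a b := by
        simp [res, emb, pl]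
      rw [e]
      exact Ideal.mem_span_singleton_self _
  exact congrArg (fun φ => φ F) h

theorem pderiv_emb (B : R3) : pderiv 3 (emb B) = 0 := by
  induction B using MvPolynomial.induction_on with
  | C a => simp [emb]
  | add p q hp hq => rw [map_add, map_add, hp, hq, add_zero]
  | mul_X p n hp =>
    have hX : pderiv 3 (emb (X n)) = 0 := by
      fin_cases n <;> simp [emb, pderiv_X]
    rw [map_mul, Derivation.leibniz, hp, hX, smul_zero, smul_zero, add_zero]

/-- If all monomials of `B` have degree at least three in the last two variables, then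
`emb B` lies in the cube of the ideal of the point. -/
theorem emb_mem_cube (t : ℂ) (B : R3) (hB : ∀ α : Fin 3 →₀ ℕ, coeff α B ≠ 0 → 3 ≤ α 1 + α 2) :
    emb B ∈ (mw (pt t)) ^ 3 := by
  have h1 : (X 1 : R4) ∈ mw (pt t) := by
    have := gen_mem (pt t) 1
    simpa [pt] using this
  have h2 : (X 2 : R4) ∈ mw (pt t) := by
    have := gen_mem (pt t) 2
    simpa [pt] using this
  rw [B.as_sum, map_sum]
  refine Ideal.sum_mem _ fun α hα => ?_
  have hα' := hB α (mem_support_iff.1 hα)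
  rw [emb, aeval_monomial, Finsupp.prod_fintype _ _ (fun i => pow_zero _), Fin.prod_univ_three]
  have h3 : (X 1 : R4) ^ α 1 * X 2 ^ α 2 ∈ (mw (pt t)) ^ 3 := by
    refine Ideal.pow_le_pow_right hα' ?_
    rw [pow_add]
    exact Ideal.mul_mem_mul (Ideal.pow_mem_pow h1 _) (Ideal.pow_mem_pow h2 _)
  have e : algebraMap ℂ R4 (coeff α B) * ((![X 0, X 1, X 2] : Fin 3 → R4) 0 ^ α 0 *
      (![X 0, X 1, X 2] : Fin 3 → R4) 1 ^ α 1 * (![X 0, X 1, X 2] : Fin 3 → R4) 2 ^ α 2) =
      (algebraMap ℂ R4 (coeff α B) * X 0 ^ α 0) * (X 1 ^ α 1 * X 2 ^ α 2) := by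
    simp
    ring
  rw [e]
  exact Ideal.mul_mem_left _ _ h3

/-- Exponents. -/
noncomputable def ex (i j k : ℕ) : Fin 3 →₀ ℕ := Finsupp.equivFunOnFinite.symm ![i, j, k]

theorem ex_apply (i j k : ℕ) : ex i j k 0 = i ∧ ex i j k 1 = j ∧ ex i j k 2 = k := by
  simp [ex]

theorem deg_ex (α : Fin 3 →₀ ℕ) : Finsupp.degree α = α 0 + α 1 + α 2 := by
  rw [Finsupp.degree_eq_sum, Fin.sum_univ_three]

theorem eq_ex (α : Fin 3 →₀ ℕ) : α = ex (α 0) (α 1) (α 2) := by
  ext i
  fin_cases i <;> simp [ex]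

theorem emb_sub (d : ℕ) (hd : 3 ≤ d) (t : ℂ) (B : R3) (hB : GenNode d B) :
    emb B - (C (coeff (ex (d - 2) 2 0) B) * X 1 ^ 2 + C (coeff (ex (d - 2) 1 1) B) * (X 1 * X 2) +
      C (coeff (ex (d - 2) 0 2) B) * X 2 ^ 2) ∈
      Ideal.span {(X 0 - 1 : R4)} ⊔ (mw (pt t)) ^ 3 := by
  set A := coeff (ex (d - 2) 2 0) B with hA
  set A1 := coeff (ex (d - 2) 1 1) B with hA1
  set A2 := coeff (ex (d - 2) 0 2) B with hA2
  set M : R3 := monomial (ex (d - 2) 2 0) A + monomial (ex (d - 2) 1 1) A1 +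
    monomial (ex (d - 2) 0 2) A2 with hM
  have h1 : emb (B - M) ∈ (mw (pt t)) ^ 3 := by
    apply emb_mem_cube
    intro α hα
    by_contra hlt
    push Not at hlt
    apply hα
    have hne : ∀ i j k : ℕ, ¬ (α 0 = i ∧ α 1 = j ∧ α 2 = k) → ex i j k ≠ α := by
      rintro i j k h rfl
      exact h (ex_apply i j k)
    rw [coeff_sub, hM, coeff_add, coeff_add, coeff_monomial, coeff_monomial, coeff_monomial]
    by_cases hdeg : Finsupp.degree α = d
    · rw [deg_ex] at hdeg
      rcases Nat.lt_or_ge (α 1 + α 2) 2 with h2 | h2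
      · have h3 : coeff α B = 0 := hB.zero α (by omega)
        rw [h3, if_neg (hne _ _ _ (by omega)), if_neg (hne _ _ _ (by omega)),
          if_neg (hne _ _ _ (by omega))]
        ring
      · have h4 : α = ex (d - 2) (α 1) (α 2) := by
          have := eq_ex α
          rwa [show α 0 = d - 2 by omega] at this
        have h5 : (α 1 = 2 ∧ α 2 = 0) ∨ (α 1 = 1 ∧ α 2 = 1) ∨ (α 1 = 0 ∧ α 2 = 2) := by omega
        rcases h5 with ⟨h6, h7⟩ | ⟨h6, h7⟩ | ⟨h6, h7⟩
        · rw [h6, h7] at h4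
          rw [if_pos h4.symm, if_neg (hne _ _ _ (by omega)), if_neg (hne _ _ _ (by omega)), hA, ← h4]
          ring
        · rw [h6, h7] at h4
          rw [if_neg (hne _ _ _ (by omega)), if_pos h4.symm, if_neg (hne _ _ _ (by omega)), hA1, ← h4]
          ring
        · rw [h6, h7] at h4
          rw [if_neg (hne _ _ _ (by omega)), if_neg (hne _ _ _ (by omega)), if_pos h4.symm, hA2, ← h4]
          ring
    · have h3 : coeff α B = 0 := hB.hom.coeff_eq_zero (by simpa [Finsupp.degree] using hdeg)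
      rw [deg_ex] at hdeg
      rw [h3, if_neg (hne _ _ _ (by omega)), if_neg (hne _ _ _ (by omega)),
        if_neg (hne _ _ _ (by omega))]
      ring
  have h2 : emb M = X 0 ^ (d - 2) * (C A * X 1 ^ 2 + C A1 * (X 1 * X 2) + C A2 * X 2 ^ 2) := by
    have e : ∀ (i j k : ℕ) (c : ℂ), emb (monomial (ex i j k) c) =
        C c * (X 0 ^ i * X 1 ^ j * X 2 ^ k) := by
      intro i j k c
      obtain ⟨e0, e1, e2⟩ := ex_apply i j k
      rw [emb, aeval_monomial, Finsupp.prod_fintype _ _ (fun i => pow_zero _), Fin.prod_univ_three,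
        e0, e1, e2]
      simp [MvPolynomial.algebraMap_eq]
    rw [hM, map_add, map_add, e, e, e]
    ring
  have h3 : ((X 0 : R4) ^ (d - 2) - 1) ∈ Ideal.span {(X 0 - 1 : R4)} := by
    rw [Ideal.mem_span_singleton]
    simpa using sub_dvd_pow_sub_pow (X 0 : R4) 1 (d - 2)
  have h4 : emb B - (C A * X 1 ^ 2 + C A1 * (X 1 * X 2) + C A2 * X 2 ^ 2) =
      (C A * X 1 ^ 2 + C A1 * (X 1 * X 2) + C A2 * X 2 ^ 2) * ((X 0 : R4) ^ (d - 2) - 1) +
        emb (B - M) := by
    rw [map_sub, h2]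
    ring
  rw [h4]
  exact Ideal.add_mem _ (Ideal.mem_sup_left (Ideal.mul_mem_left _ _ h3)) (Ideal.mem_sup_right h1)

end part2

section main

theorem mem_mw_of_eval {w : Fin (3 + 1) → ℂ} {h : R4} (h0 : eval w h = 0) : h ∈ mw w := by
  have h1 := taylor (w := w) h
  rw [h0, map_zero, sub_zero] at h1
  have h2 : (mw w) ^ 2 ≤ mw w := Ideal.pow_le_self (by norm_num)
  have h3 : ∑ i, C (eval w (pderiv i h)) * (X i - C (w i) : R4) ∈ mw w :=
    Ideal.sum_mem _ fun i _ => Ideal.mul_mem_left _ _ (gen_mem w i)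
  have h4 := Ideal.add_mem _ (h2 h1) h3
  rwa [sub_add_cancel] at h4

theorem ind_ne (d : ℕ) (hd : 3 ≤ d) (B : R3) (hB : GenNode d B) :
    coeff (ex (d - 2) 2 0) B ≠ 0 ∧
      coeff (ex (d - 2) 1 1) B ^ 2 - 4 * coeff (ex (d - 2) 2 0) B * coeff (ex (d - 2) 0 2) B ≠ 0 := by
  have hin : ∀ j k : ℕ, j + k = 2 → Finsupp.degree (ex (d - 2) j k) = d ∧
      (ex (d - 2) j k) 0 + 2 ≤ d := by
    intro j k hjk
    obtain ⟨e0, e1, e2⟩ := ex_apply (d - 2) j k
    rw [deg_ex, e0, e1, e2]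
    omega
  set i0 : {α : Fin 3 →₀ ℕ // Finsupp.degree α = d ∧ α 0 + 2 ≤ d} :=
    ⟨ex (d - 2) 2 0, hin 2 0 rfl⟩ with hi0
  set i1 : {α : Fin 3 →₀ ℕ // Finsupp.degree α = d ∧ α 0 + 2 ≤ d} :=
    ⟨ex (d - 2) 1 1, hin 1 1 rfl⟩ with hi1
  set i2 : {α : Fin 3 →₀ ℕ // Finsupp.degree α = d ∧ α 0 + 2 ≤ d} :=
    ⟨ex (d - 2) 0 2, hin 0 2 rfl⟩ with hi2
  have h01 : i0 ≠ i1 := by
    intro h
    have h1 := congrArg (fun α => α.1 1) h
    simp only [hi0, hi1, (ex_apply _ _ _).2.1] at h1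
    omega
  refine ⟨hB.ind.ne_zero i0, fun h0 => ?_⟩
  set P : MvPolynomial {α : Fin 3 →₀ ℕ // Finsupp.degree α = d ∧ α 0 + 2 ≤ d} ℚ :=
    X i1 ^ 2 - 4 * X i0 * X i2 with hP
  have h1 : aeval (fun α : {α : Fin 3 →₀ ℕ // Finsupp.degree α = d ∧ α 0 + 2 ≤ d} =>
      coeff α.1 B) P = 0 := by
    rw [hP]
    simp only [map_sub, map_mul, map_pow, aeval_X, map_ofNat]
    exact h0
  have h2 : P = 0 := hB.ind.eq_zero_of_aeval_eq_zero P h1
  have h3 := congrArg (eval (fun i => open Classical in if i = i1 then (1 : ℚ) else 0)) h2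
  rw [hP] at h3
  simp [h01] at h3

theorem t_NODE : S_NODE := by
  intro d F t a b hd hF h0 hc hB
  refine ⟨finrank_eq (pt t) F h0 hc, ?_⟩
  obtain ⟨hA, hdisc⟩ := ind_ne d hd _ hB
  have hsub := emb_sub d hd t _ hB
  set B : R3 := res t a b F with hBdef
  set A := coeff (ex (d - 2) 2 0) B with hAdef
  set A1 := coeff (ex (d - 2) 1 1) B with hA1def
  set A2 := coeff (ex (d - 2) 0 2) B with hA2def
  set w := pt t with hw
  set c := eval w (pderiv 3 F) with hcdef
  set Q : R4 := C A * X 1 ^ 2 + C A1 * (X 1 * X 2) + C A2 * X 2 ^ 2 with hQ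
  obtain ⟨G, hG⟩ := Ideal.mem_span_singleton'.1 (sub_emb_res t a b F)
  rw [← hBdef] at hG
  have hplw : eval w (pl t a b) = 0 := by simp [pl, hw, pt]
  have hpl3 : pderiv 3 (pl t a b) = 1 := by
    simp [pl, pderiv_X]
  have hX1 : (X 1 : R4) ∈ mw w := mem_mw_of_eval (by simp [hw, pt])
  have hX2 : (X 2 : R4) ∈ mw w := mem_mw_of_eval (by simp [hw, pt])
  have hplm : pl t a b ∈ mw w := mem_mw_of_eval hplw
  have hGc : eval w G = c := by
    have h1 : F = emb B + G * pl t a b := by rw [hG]; ring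
    rw [hcdef]
    conv_rhs => rw [h1]
    rw [map_add, pderiv_emb, zero_add, Derivation.leibniz, hpl3]
    simp [hplw]
  set g : R4 := G - C c with hg
  have hgm : g ∈ mw w := mem_mw_of_eval (by simp [hg, hGc])
  -- the ideals
  set J : Ideal R4 := Ideal.span {F} ⊔ Ideal.span {X 0 - 1} with hJ
  have hFJ : F ∈ J := Ideal.mem_sup_left (Ideal.mem_span_singleton_self F)
  have h1 : emb B - Q ∈ J ⊔ (mw w) ^ 3 := by
    have hle : Ideal.span {(X 0 - 1 : R4)} ⊔ (mw w) ^ 3 ≤ J ⊔ (mw w) ^ 3 :=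
      sup_le_sup_right le_sup_right _
    exact hle hsub
  have h2 : G * pl t a b + Q ∈ J ⊔ (mw w) ^ 3 := by
    have e : G * pl t a b + Q = F - (emb B - Q) := by rw [hG]; ring
    rw [e]
    exact Ideal.sub_mem _ (Ideal.mem_sup_left hFJ) h1
  have h32 : J ⊔ (mw w) ^ 3 ≤ J ⊔ (mw w) ^ 2 :=
    sup_le_sup_left (Ideal.pow_le_pow_right (by norm_num)) _
  have hQ2 : Q ∈ (mw w) ^ 2 := by
    rw [hQ, pow_two, pow_two, pow_two]
    refine Ideal.add_mem _ (Ideal.add_mem _ ?_ ?_) ?_
    · exact Ideal.mul_mem_left _ _ (Ideal.mul_mem_mul hX1 hX1)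
    · exact Ideal.mul_mem_left _ _ (Ideal.mul_mem_mul hX1 hX2)
    · exact Ideal.mul_mem_left _ _ (Ideal.mul_mem_mul hX2 hX2)
  have hcC : (C c⁻¹ * C c : R4) = 1 := by rw [← C_mul, inv_mul_cancel₀ hc, C_1]
  have h4 : pl t a b ∈ J ⊔ (mw w) ^ 2 := by
    have e : pl t a b = C c⁻¹ * ((G * pl t a b + Q) - Q - g * pl t a b) := by
      rw [hg]
      calc pl t a b = (C c⁻¹ * C c) * pl t a b := by rw [hcC, one_mul]
        _ = _ := by ring
    rw [e]
    refine Ideal.mul_mem_left _ _ (Ideal.sub_mem _ (Ideal.sub_mem _ (h32 h2) ?_) ?_)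
    · exact Ideal.mem_sup_right hQ2
    · refine Ideal.mem_sup_right ?_
      rw [pow_two]
      exact Ideal.mul_mem_mul hgm hplm
  have h5 : g * pl t a b ∈ J ⊔ (mw w) ^ 3 := by
    obtain ⟨u, hu, v, hv, huv⟩ := Submodule.mem_sup.1 h4
    rw [← huv, mul_add]
    refine Ideal.add_mem _ (Ideal.mem_sup_left (Ideal.mul_mem_left _ _ hu))
      (Ideal.mem_sup_right ?_)
    rw [pow_succ']
    exact Ideal.mul_mem_mul hgm hv
  have h6 : pl t a b + C c⁻¹ * Q ∈ J ⊔ (mw w) ^ 3 := by
    have e : pl t a b + C c⁻¹ * Q = C c⁻¹ * ((G * pl t a b + Q) - g * pl t a b) := by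
      rw [hg]
      calc pl t a b + C c⁻¹ * Q = (C c⁻¹ * C c) * pl t a b + C c⁻¹ * Q := by rw [hcC, one_mul]
        _ = _ := by ring
    rw [e]
    exact Ideal.mul_mem_left _ _ (Ideal.sub_mem _ h2 h5)
  -- the factorisation
  obtain ⟨δ, hδ⟩ := IsAlgClosed.exists_pow_nat_eq (A1 ^ 2 - 4 * A * A2) (n := 2) (by norm_num)
  have hδ0 : δ ≠ 0 := by
    rintro rfl
    apply hdisc
    rw [← hδ]; norm_num
  set p : ℂ := -(1 / c) with hp
  set q : ℂ := -((A1 + δ) / (2 * c * A)) with hq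
  set s : ℂ := (A1 - δ) / 2 with hs
  have e1 : p * A = -(c⁻¹ * A) := by rw [hp]; field_simp
  have e2 : p * s + q * A = -(c⁻¹ * A1) := by rw [hp, hq, hs]; field_simp; ring
  have e3 : q * s = -(c⁻¹ * A2) := by
    rw [hq, hs]
    have : (A1 + δ) * (A1 - δ) = 4 * A * A2 := by
      linear_combination -hδ
    field_simp
    linear_combination -this
  have e4 : p * s - q * A = δ / c := by rw [hp, hq, hs]; field_simp; ring
  refine ⟨C p * X 1 + C q * X 2, C A * X 1 + C s * X 2, ?_, ?_, ?_, ?_, ?_, ?_⟩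
  · exact (isHomogeneous_C_mul_X _ _).add (isHomogeneous_C_mul_X _ _)
  · exact (isHomogeneous_C_mul_X _ _).add (isHomogeneous_C_mul_X _ _)
  · simp [hw, pt]
  · simp [hw, pt]
  · intro a' b' hab
    obtain ⟨u, hu, v, hv, huv⟩ := Submodule.mem_sup.1 hab
    obtain ⟨x, hx, y, hy, hxy⟩ := Submodule.mem_sup.1 hu
    obtain ⟨f, rfl⟩ := Ideal.mem_span_singleton'.1 hx
    obtain ⟨k, rfl⟩ := Ideal.mem_span_singleton'.1 hy
    obtain ⟨-, hv1⟩ := mem_sq_iff.1 hv
    rw [← hxy] at huv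
    have hw0 : w 0 = 1 := by simp [hw, pt]
    have hder : ∀ i, eval w (pderiv i (C a' * (C p * X 1 + C q * X 2) +
        C b' * (C A * X 1 + C s * X 2))) =
        eval w f * eval w (pderiv i F) + eval w k * eval w (pderiv i (X 0)) := by
      intro i
      rw [← huv, map_add, map_add, map_add, map_add, hv1 i, Derivation.leibniz,
        Derivation.leibniz]
      simp [h0, hw0]
    have d3 := hder 3
    have d1 := hder 1
    have d2 := hder 2
    simp [pderiv_X] at d3 d1 d2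
    have hf0 : eval w f = 0 := d3.resolve_right hc
    rw [hf0, zero_mul] at d1 d2
    have ha' : a' = 0 := by
      have h7 : a' * (δ / c) = 0 := by
        rw [← e4]
        linear_combination s * d1 - A * d2
      exact (mul_eq_zero.1 h7).resolve_right (div_ne_zero hδ0 hc)
    refine ⟨ha', ?_⟩
    rw [ha', zero_mul, zero_add] at d1
    exact (mul_eq_zero.1 d1).resolve_right hA
  · have e : pl t a b - (C p * X 1 + C q * X 2) * (C A * X 1 + C s * X 2) =
        pl t a b + C c⁻¹ * Q := by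
      have e5 : (C p * X 1 + C q * X 2 : R4) * (C A * X 1 + C s * X 2) =
          C (p * A) * X 1 ^ 2 + C (p * s + q * A) * (X 1 * X 2) + C (q * s) * X 2 ^ 2 := by
        simp only [C_mul, C_add]
        ring
      rw [e5, e1, e2, e3, hQ]
      simp only [C_mul, C_neg]
      ring
    rw [e]
    exact h6

end main

end Pool.Agent.TH623.VS
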